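import Pool.Agent.helper94.PL.Spec

/-!
# Module RFE of project pl2 (MP_af9036_an): the functions `ry E θ`.
-/

set_option autoImplicit false

open Complex Metric Set Filter Topology MeasureTheory MPS
open Pool.Agent.helper16.Multibrot

noncomputable section

namespace PLY

theorem RFE_norm (θ : ℝ) (s : ℂ) : ‖Complex.exp (s + 2 * Real.pi * θ * I)‖ = Real.exp s.re := by
  rw [Complex.norm_exp]
  congr 1
  have : (2 * Real.pi * θ * I : ℂ) = ((2 * Real.pi * θ : ℝ) : ℂ) * I := by push_cast; ring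
  rw [this, Complex.add_re, Complex.re_ofReal_mul, Complex.I_re]
  ring

theorem RFE_one_lt (θ : ℝ) (s : ℂ) (hs : s ∈ RH) :
    1 < ‖Complex.exp (s + 2 * Real.pi * θ * I)‖ := by
  rw [RFE_norm]
  exact Real.one_lt_exp_iff.mpr hs

theorem RFE (h1 : BIT_stmt) (h2 : BIN_stmt) : RFE_stmt := by
  intro n c E hn hc hE
  refine ⟨?_, ?_, ?_⟩
  · intro θ s hs
    have hlt : ‖(Complex.exp (s + 2 * Real.pi * θ * I))⁻¹‖ < 1 := by
      rw [norm_inv]
      exact inv_lt_one_of_one_lt₀ (RFE_one_lt θ s hs)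
    have hmem : (Complex.exp (s + 2 * Real.pi * θ * I))⁻¹ ∈ ball (0 : ℂ) 1 := by
      simpa [mem_ball_zero_iff] using hlt
    have hEd : DifferentiableAt ℂ E ((Complex.exp (s + 2 * Real.pi * θ * I))⁻¹) :=
      hE.hol.differentiableAt (isOpen_ball.mem_nhds hmem)
    have hexp : DifferentiableAt ℂ (fun x : ℂ => Complex.exp (x + 2 * Real.pi * θ * I)) s := by
      fun_prop
    have hinv : DifferentiableAt ℂ (fun x : ℂ => (Complex.exp (x + 2 * Real.pi * θ * I))⁻¹) s :=
      hexp.inv (Complex.exp_ne_zero _)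
    have hcomp : DifferentiableAt ℂ
        (fun x : ℂ => E ((Complex.exp (x + 2 * Real.pi * θ * I))⁻¹)) s :=
      DifferentiableAt.comp (g := E) s hEd hinv
    exact (hexp.mul hcomp).differentiableWithinAt
  · intro θ m hθ s hs
    obtain ⟨j, hj⟩ := hθ
    have hB := (h1 n c E hn hE (Complex.exp (s + 2 * Real.pi * θ * I)) (RFE_one_lt θ s hs)).1 m
    unfold ry
    rw [hB]
    congr 1
    rw [← Complex.exp_nat_mul, Complex.exp_eq_exp_iff_exists_int]
    refine ⟨j, ?_⟩
    have hj' : (((n : ℂ) ^ m - 1) * θ) = (j : ℂ) := by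
      have := congrArg (fun x : ℝ => (x : ℂ)) hj
      push_cast at this
      exact this
    rw [← hj']
    push_cast
    ring
  · intro θ θ' s hs s' hs' h
    have hI := h2 n c E hn hc hE (RFE_one_lt θ s hs) (RFE_one_lt θ' s' hs') h
    obtain ⟨j, hj⟩ := Complex.exp_eq_exp_iff_exists_int.mp hI
    refine ⟨j, ?_⟩
    have : s = s' + 2 * Real.pi * θ' * I + j * (2 * Real.pi * I) - 2 * Real.pi * θ * I := by
      rw [← hj]; ring
    rw [this]
    ring

end PLY
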